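import Pool.Agent.E8helper11.LB.Stm

set_option autoImplicit false

open Set MeasureTheory

namespace LB11

lemma pole_sinh_le {w : ℂ} (hw : ‖w‖ ≤ 1) : ‖Complex.sinh w‖ ≤ 2 * ‖w‖ := by
  have h1 := Complex.norm_exp_sub_one_le hw
  have h2 := Complex.norm_exp_sub_one_le (x := -w) (by rwa [norm_neg])
  rw [norm_neg] at h2
  have e : Complex.sinh w = ((Complex.exp w - 1) - (Complex.exp (-w) - 1)) / 2 := by
    rw [Complex.sinh]; ring
  rw [e, norm_div]
  have h3 : ‖(2 : ℂ)‖ = 2 := by simp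
  rw [h3, div_le_iff₀ (by norm_num)]
  calc _ ≤ ‖Complex.exp w - 1‖ + ‖Complex.exp (-w) - 1‖ := norm_sub_le _ _
    _ ≤ 2 * ‖w‖ * 2 := by linarith

lemma pole_sinh_ne {w : ℂ} (hw : w.re ≠ 0) : Complex.sinh w ≠ 0 := by
  intro h
  have h1 : Complex.exp w = Complex.exp (-w) := by
    rw [Complex.sinh, div_eq_zero_iff] at h
    rcases h with h | h
    · exact sub_eq_zero.1 h
    · norm_num at h
  have h2 := congrArg norm h1
  rw [Complex.norm_exp, Complex.norm_exp, Complex.neg_re] at h2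
  have h3 := Real.exp_injective h2
  apply hw
  linarith

lemma pole_shift (n : ℕ) (w : ℂ) : ‖Complex.sinh (((Real.pi * n : ℝ) : ℂ) * Complex.I + w)‖ = ‖Complex.sinh w‖ := by
  rw [Complex.sinh_add, Complex.sinh_mul_I, Complex.cosh_mul_I]
  have h1 : Complex.sin ((Real.pi * n : ℝ) : ℂ) = 0 := by
    have := Complex.sin_nat_mul_pi n
    push_cast
    rw [mul_comm]; exact this
  have h2 : ‖Complex.cos ((Real.pi * n : ℝ) : ℂ)‖ = 1 := by
    rw [← Complex.ofReal_cos, mul_comm, Real.cos_nat_mul_pi, Complex.norm_real]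
    simp
  rw [h1, zero_mul, zero_mul, zero_add, norm_mul, h2, one_mul]

lemma pole_unit {δ : ℝ} (hδ : 0 < δ) : ‖Complex.exp (((-δ : ℝ) : ℂ) * Complex.I) - 1‖ ≤ δ := by
  have h := Real.norm_exp_I_mul_ofReal_sub_one_le (x := -δ)
  rw [mul_comm]
  refine h.trans ?_
  rw [Real.norm_eq_abs, abs_neg, abs_of_pos hδ]

/-- the bound for one factor -/
lemma pole_fac (n : ℕ) (hn : 0 < n) {δ : ℝ} (hδ : 0 < δ) (hδ1 : δ < 1 / 4) (hδn : Real.pi * n * δ ≤ 1) :
    ‖Complex.sinh (((Real.pi * n : ℝ) : ℂ) * Complex.exp (((Real.pi / 2 - δ : ℝ) : ℂ) * Complex.I))‖ ≤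
      2 * (Real.pi * n * δ) ∧
    Complex.sinh (((Real.pi * n : ℝ) : ℂ) * Complex.exp (((Real.pi / 2 - δ : ℝ) : ℂ) * Complex.I)) ≠ 0 := by
  have hn' : (0 : ℝ) < n := by exact_mod_cast hn
  have hpi := Real.pi_pos
  constructor
  · have e : ((Real.pi * n : ℝ) : ℂ) * Complex.exp (((Real.pi / 2 - δ : ℝ) : ℂ) * Complex.I) =
        ((Real.pi * n : ℝ) : ℂ) * Complex.I +
          ((Real.pi * n : ℝ) : ℂ) * Complex.I * (Complex.exp (((-δ : ℝ) : ℂ) * Complex.I) - 1) := by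
      have e1 : Complex.exp (((Real.pi / 2 - δ : ℝ) : ℂ) * Complex.I) =
          Complex.I * Complex.exp (((-δ : ℝ) : ℂ) * Complex.I) := by
        have : ((Real.pi / 2 - δ : ℝ) : ℂ) * Complex.I = (Real.pi / 2 : ℂ) * Complex.I + ((-δ : ℝ) : ℂ) * Complex.I := by
          push_cast; ring
        rw [this, Complex.exp_add, Complex.exp_pi_div_two_mul_I]
      rw [e1]; ring
    rw [e, pole_shift]
    have hw : ‖((Real.pi * n : ℝ) : ℂ) * Complex.I * (Complex.exp (((-δ : ℝ) : ℂ) * Complex.I) - 1)‖ ≤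
        Real.pi * n * δ := by
      rw [norm_mul, norm_mul, Complex.norm_I, mul_one, Complex.norm_real, Real.norm_of_nonneg (by positivity)]
      exact mul_le_mul_of_nonneg_left (pole_unit hδ) (by positivity)
    refine (pole_sinh_le (hw.trans hδn)).trans ?_
    linarith
  · apply pole_sinh_ne
    rw [Complex.re_ofReal_mul, Complex.exp_ofReal_mul_I_re, Real.cos_pi_div_two_sub]
    have : 0 < Real.sin δ := Real.sin_pos_of_pos_of_lt_pi hδ (by linarith [Real.pi_gt_three])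
    positivity

theorem t_POLE : S_POLE := by
  intro p q hp hq
  have hp' : (0 : ℝ) < p := by exact_mod_cast hp
  have hq' : (0 : ℝ) < q := by exact_mod_cast hq
  have hpi := Real.pi_pos
  refine ⟨1 / (32 * Real.pi ^ 2 * p * q), min (1 / 4) (min (1 / (Real.pi * p)) (1 / (Real.pi * q))),
    by positivity, by positivity, ?_⟩
  intro δ hδ hδ0
  have d1 : δ < 1 / 4 := lt_of_lt_of_le hδ0 (min_le_left _ _)
  have d2 : Real.pi * p * δ ≤ 1 := by
    have : δ < 1 / (Real.pi * p) := lt_of_lt_of_le hδ0 ((min_le_right _ _).trans (min_le_left _ _))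
    rw [lt_div_iff₀ (by positivity)] at this
    linarith
  have d3 : Real.pi * q * δ ≤ 1 := by
    have : δ < 1 / (Real.pi * q) := lt_of_lt_of_le hδ0 ((min_le_right _ _).trans (min_le_right _ _))
    rw [lt_div_iff₀ (by positivity)] at this
    linarith
  obtain ⟨a1, a2⟩ := pole_fac q hq hδ d1 d3
  obtain ⟨b1, b2⟩ := pole_fac p hp hδ d1 d2
  have hqC : (q : ℂ) ≠ 0 := by exact_mod_cast hq.ne'
  have hpC : (p : ℂ) ≠ 0 := by exact_mod_cast hp.ne'
  have e1 : ((2 * Real.pi * q : ℝ) : ℂ) * Complex.exp (((Real.pi / 2 - δ : ℝ) : ℂ) * Complex.I) / 2 =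
      ((Real.pi * q : ℝ) : ℂ) * Complex.exp (((Real.pi / 2 - δ : ℝ) : ℂ) * Complex.I) := by
    push_cast; ring
  have e2 : (((p : ℝ) / q : ℝ) : ℂ) * (((2 * Real.pi * q : ℝ) : ℂ) *
      Complex.exp (((Real.pi / 2 - δ : ℝ) : ℂ) * Complex.I)) / 2 =
      ((Real.pi * p : ℝ) : ℂ) * Complex.exp (((Real.pi / 2 - δ : ℝ) : ℂ) * Complex.I) := by
    push_cast; field_simp
  have e3 : ‖1 / ((((p : ℝ) / q : ℝ) : ℂ) * (((2 * Real.pi * q : ℝ) : ℂ) *
      Complex.exp (((Real.pi / 2 - δ : ℝ) : ℂ) * Complex.I)) ^ 2)‖ = 1 / (4 * Real.pi ^ 2 * p * q) := by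
    rw [norm_div, norm_one, norm_mul, norm_pow, norm_mul, Complex.norm_exp_ofReal_mul_I, mul_one,
      Complex.norm_real, Complex.norm_real, Real.norm_of_nonneg (by positivity),
      Real.norm_of_nonneg (by positivity)]
    congr 1
    field_simp
    ring
  unfold H
  rw [e1, e2]
  set S1 := Complex.sinh (((Real.pi * q : ℝ) : ℂ) * Complex.exp (((Real.pi / 2 - δ : ℝ) : ℂ) * Complex.I)) with hS1
  set S2 := Complex.sinh (((Real.pi * p : ℝ) : ℂ) * Complex.exp (((Real.pi / 2 - δ : ℝ) : ℂ) * Complex.I)) with hS2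
  have h1 : ‖4 * S1 * S2‖ ≤ 16 * Real.pi ^ 2 * p * q * δ ^ 2 := by
    rw [norm_mul, norm_mul]
    have h4 : ‖(4 : ℂ)‖ = 4 := by simp
    rw [h4]
    calc 4 * ‖S1‖ * ‖S2‖ ≤ 4 * (2 * (Real.pi * q * δ)) * (2 * (Real.pi * p * δ)) := by gcongr
      _ = _ := by ring
  have h2 : 0 < ‖4 * S1 * S2‖ := by
    rw [norm_pos_iff]
    exact mul_ne_zero (mul_ne_zero (by norm_num) a2) b2
  have h3 : 1 / (16 * Real.pi ^ 2 * p * q * δ ^ 2) ≤ ‖1 / (4 * S1 * S2)‖ := by
    rw [norm_div, norm_one]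
    exact one_div_le_one_div_of_le h2 h1
  have h5 : ‖1 / (4 * S1 * S2)‖ - 1 / (4 * Real.pi ^ 2 * p * q) ≤
      ‖1 / (4 * S1 * S2) - 1 / ((((p : ℝ) / q : ℝ) : ℂ) * (((2 * Real.pi * q : ℝ) : ℂ) *
      Complex.exp (((Real.pi / 2 - δ : ℝ) : ℂ) * Complex.I)) ^ 2)‖ := by
    rw [← e3]
    exact norm_sub_norm_le _ _
  refine le_trans ?_ h5
  have h6 : δ ^ (-2 : ℝ) = 1 / δ ^ 2 := by
    rw [Real.rpow_neg hδ.le, one_div]
    congr 1
    exact_mod_cast Real.rpow_natCast δ 2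
  rw [h6]
  have h7 : 1 / (4 * Real.pi ^ 2 * p * q) ≤ 1 / (32 * Real.pi ^ 2 * p * q) * (1 / δ ^ 2) := by
    have h9 : 8 ≤ 1 / δ ^ 2 := by
      rw [le_div_iff₀ (by positivity)]
      nlinarith
    calc 1 / (4 * Real.pi ^ 2 * p * q) = 1 / (32 * Real.pi ^ 2 * p * q) * 8 := by
          field_simp
          norm_num
      _ ≤ _ := mul_le_mul_of_nonneg_left h9 (by positivity)
  have h8 : 1 / (16 * Real.pi ^ 2 * p * q * δ ^ 2) = 2 * (1 / (32 * Real.pi ^ 2 * p * q) * (1 / δ ^ 2)) := by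
    field_simp
    norm_num
  linarith

end LB11
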